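import Pool.Agent.H29.HopsProof

set_option autoImplicit false

namespace Pool.Agent.Results.MP_7edec4_co.BoundedHops

open Pool.Agent.H29.Hops

/-- The inequality `gcol_{k,ℓ}(G) ≤ col_{ℓ-k+1}(G) * col_1(G) ^ (k-1)` listed in the problem file
fails for some finite graph `G`, with `k = 2` and `ℓ = 30`. -/
theorem listed_inequality_fails :
    ∃ (V : Type) (_ : Finite V) (G : SimpleGraph V),
      gcol 1 (30 - 2 + 1) G * gcol 1 1 G ^ (2 - 1) < gcol 2 30 G :=
  Pool.Agent.H29.Hops.listed_inequality_fails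

/-- **Characterisation of property (P).**  A function `k` with `1 ≤ k(ℓ) ≤ ℓ` has property (P) if
and only if it is bounded. -/
theorem result (k : ℕ → ℕ) (hk : ∀ ℓ, 1 ≤ ℓ → 1 ≤ k ℓ ∧ k ℓ ≤ ℓ) :
    PropertyP k ↔ ∃ K : ℕ, ∀ ℓ, 1 ≤ ℓ → k ℓ ≤ K :=
  Pool.Agent.H29.Hops.main k hk

end Pool.Agent.Results.MP_7edec4_co.BoundedHops
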